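import Pool.Agent.H64.EV.Targets

/-!
# MP_fd35e1_ag, evn_modules, row OTP: the supertrace of a composition is the pairing
-/

set_option autoImplicit false

open Matrix Pool.Agent.H2.NL Pool.Agent.H64.CC Pool.Agent.H64.EV

namespace Pool.Agent.H99.EV

section

set_option linter.unusedSectionVars false

variable {K : Type} [Field K] {I : Type} [Fintype I] [DecidableEq I] (F : OForm K I)

private theorem sumv (l : ℕ) (f : List I → K) :
    ∑ u : List.Vector I (l + 1), f u.1 = ∑ a, ∑ u : List.Vector I l, f (a :: u.1) := by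
  rw [← Fintype.sum_prod_type' (f := fun (a : I) (u : List.Vector I l) => f (a :: u.1))]
  refine (Fintype.sum_bijective (fun p : I × List.Vector I l => p.1 ::ᵥ p.2) ?_ _ _ ?_).symm
  · constructor
    · rintro ⟨a, u⟩ ⟨b, v⟩ h
      have h1 : a :: u.1 = b :: v.1 := congrArg Subtype.val h
      rw [List.cons.injEq] at h1
      exact Prod.ext h1.1 (Subtype.ext h1.2)
    · rintro ⟨w, hw⟩
      cases w with
      | nil => simp at hw
      | cons a w => exact ⟨(a, ⟨w, by simpa using hw⟩), Subtype.ext rfl⟩
  · rintro ⟨a, u⟩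
    rfl

private theorem Pr_last (n : ℕ) : ∀ f g : List I → K, F.Pr (n + 1) f g =
    ∑ b, F.c b * F.Pr n (fun w => f (w ++ [b])) (fun w => g (w ++ [F.st b])) := by
  induction n with
  | zero =>
    intro f g
    rfl
  | succ n ih =>
    intro f g
    have h1 : F.Pr (n + 1 + 1) f g =
        ∑ a, F.c a * F.Pr (n + 1) (fun l => f (a :: l)) (fun l => g (F.st a :: l)) := rfl
    have h0 : ∀ a, F.c a * F.Pr (n + 1) (fun l => f (a :: l)) (fun l => g (F.st a :: l)) =
        ∑ b, F.c a * (F.c b * F.Pr n (fun w => f (a :: (w ++ [b])))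
          (fun w => g (F.st a :: (w ++ [F.st b])))) := by
      intro a
      rw [ih, Finset.mul_sum]
    rw [h1, Finset.sum_congr rfl fun a _ => h0 a, Finset.sum_comm]
    refine Finset.sum_congr rfl fun b _ => ?_
    have h2 : F.Pr (n + 1) (fun w => f (w ++ [b])) (fun w => g (w ++ [F.st b])) =
        ∑ a, F.c a * F.Pr n (fun l => f (a :: l ++ [b])) (fun l => g (F.st a :: l ++ [F.st b])) :=
      rfl
    rw [h2, Finset.mul_sum]
    refine Finset.sum_congr rfl fun a _ => ?_
    rw [mul_left_comm]
    rfl

private theorem zip_eq : ∀ (w u : List I), w.length = u.length →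
    (List.zipWith (fun a b => F.η a b) w u).prod =
      if w = u.map F.st then (u.map (fun b => F.c (F.st b))).prod else 0 := by
  intro w
  induction w with
  | nil =>
    intro u hu
    have : u = [] := List.length_eq_zero_iff.1 hu.symm
    subst this
    simp
  | cons a w ih =>
    intro u hu
    cases u with
    | nil => simp at hu
    | cons b u =>
      rw [List.zipWith_cons_cons, List.prod_cons, ih u (by simpa using hu), List.map_cons,
        List.map_cons, List.prod_cons]
      have h1 : F.η a b = if b = F.st a then F.c a else 0 := rfl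
      rw [h1]
      by_cases h : b = F.st a
      · have h2 : a = F.st b := by rw [h, F.st_st]
        rw [if_pos h]
        by_cases h3 : w = u.map F.st
        · rw [if_pos h3, if_pos (by rw [← h2, ← h3]), ← h2]
        · rw [if_neg h3, if_neg (fun h4 => h3 (List.cons.inj h4).2), mul_zero]
      · rw [if_neg h, zero_mul, if_neg]
        intro h4
        exact h (by rw [(List.cons.inj h4).1, F.st_st])

private theorem opw_eq (l : ℕ) (y : List I → K) (u u' : List I) (hu : u'.length = l) :
    opw F.η l y u u' = y (u ++ (u'.map F.st).reverse) * (u'.map (fun b => F.c (F.st b))).prod := by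
  obtain ⟨v0, hv0⟩ : ∃ v0 : List.Vector I l, v0.1 = (u'.map F.st).reverse :=
    ⟨⟨(u'.map F.st).reverse, by simp [hu]⟩, rfl⟩
  refine (Finset.sum_eq_single v0 ?_ ?_).trans ?_
  rotate_left 2
  · rw [hv0, zip_eq F _ _ (by simp), List.reverse_reverse, if_pos rfl]
  · intro v _ hv
    rw [zip_eq F _ _ (by rw [List.length_reverse, v.2, hu]), if_neg, mul_zero]
    intro h
    apply hv
    apply Subtype.ext
    change v.1 = v0.1
    rw [hv0, ← h, List.reverse_reverse]
  · intro h
    exact absurd (Finset.mem_univ _) h

private theorem main_eq (l : ℕ) : ∀ y z : List I → K,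
    ∑ u : List.Vector I l, ∑ u' : List.Vector I l, (u.1.map F.c).prod *
      (u'.1.map (fun b => F.c (F.st b))).prod *
      (y (u.1 ++ (u'.1.map F.st).reverse) * z (u'.1 ++ (u.1.map F.st).reverse)) =
    F.Pr (2 * l) y (rv z) := by
  induction l with
  | zero =>
    intro y z
    have : Subsingleton (List.Vector I 0) := inferInstance
    rw [Fintype.sum_subsingleton _ (List.Vector.nil), Fintype.sum_subsingleton _ (List.Vector.nil)]
    change (1 : K) * 1 * (y [] * z []) = y [] * z []
    rw [one_mul, one_mul]
  | succ l ih =>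
    intro y z
    rw [sumv l (fun w => ∑ u' : List.Vector I (l + 1), (w.map F.c).prod *
      (u'.1.map (fun b => F.c (F.st b))).prod *
      (y (w ++ (u'.1.map F.st).reverse) * z (u'.1 ++ (w.map F.st).reverse)))]
    have e2 : 2 * (l + 1) = (2 * l + 1) + 1 := by ring
    rw [e2]
    have h1 : F.Pr (2 * l + 1 + 1) y (rv z) = ∑ a, F.c a * F.Pr (2 * l + 1)
      (fun w => y (a :: w)) (fun w => rv z (F.st a :: w)) := rfl
    rw [h1]
    refine Finset.sum_congr rfl fun a _ => ?_
    rw [Pr_last, ← OForm.sum_st F (fun b => F.c b * F.Pr (2 * l) (fun w => y (a :: (w ++ [b])))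
      (fun w => rv z (F.st a :: (w ++ [F.st b])))), Finset.mul_sum]
    have h2 : ∀ u : List.Vector I l, ∑ u' : List.Vector I (l + 1), ((a :: u.1).map F.c).prod *
        (u'.1.map (fun b => F.c (F.st b))).prod *
        (y (a :: u.1 ++ (u'.1.map F.st).reverse) * z (u'.1 ++ ((a :: u.1).map F.st).reverse)) =
        ∑ b, ∑ u' : List.Vector I l, F.c a * (F.c (F.st b) * ((u.1.map F.c).prod *
          (u'.1.map (fun b => F.c (F.st b))).prod *
          (y (a :: (u.1 ++ (u'.1.map F.st).reverse) ++ [F.st b]) *
            z (b :: (u'.1 ++ (u.1.map F.st).reverse) ++ [F.st a])))) := by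
      intro u
      rw [sumv l (fun w => ((a :: u.1).map F.c).prod * (w.map (fun b => F.c (F.st b))).prod *
        (y (a :: u.1 ++ (w.map F.st).reverse) * z (w ++ ((a :: u.1).map F.st).reverse)))]
      refine Finset.sum_congr rfl fun b _ => Finset.sum_congr rfl fun u' _ => ?_
      have e3 : a :: u.1 ++ ((b :: u'.1).map F.st).reverse =
          a :: (u.1 ++ (u'.1.map F.st).reverse) ++ [F.st b] := by simp
      have e4 : (b :: u'.1) ++ ((a :: u.1).map F.st).reverse =
          b :: (u'.1 ++ (u.1.map F.st).reverse) ++ [F.st a] := by simp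
      rw [e3, e4, List.map_cons, List.map_cons, List.prod_cons, List.prod_cons]
      ring
    rw [Finset.sum_congr rfl fun u _ => h2 u, Finset.sum_comm]
    refine Finset.sum_congr rfl fun b _ => ?_
    have h3 := ih (fun w => y (a :: w ++ [F.st b])) (fun w => z (b :: w ++ [F.st a]))
    have h4 : F.Pr (2 * l) (fun w => y (a :: (w ++ [F.st b])))
        (fun w => rv z (F.st a :: (w ++ [F.st (F.st b)]))) =
        F.Pr (2 * l) (fun w => y (a :: w ++ [F.st b]))
          (rv (fun w => z (b :: w ++ [F.st a]))) := by
      congr 1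
      funext w
      rw [F.st_st]
      unfold rv
      congr 1
      simp
    rw [h4, ← h3]
    simp only [Finset.mul_sum]

end

theorem pf_OTP : T_OTP := by
  intro K _ I _ _ F l y z
  rw [← main_eq F l y z]
  refine Finset.sum_congr rfl fun u _ => ?_
  rw [Matrix.mul_apply, Finset.mul_sum]
  refine Finset.sum_congr rfl fun u' _ => ?_
  have h1 : op F.η l y u u' = opw F.η l y u.1 u'.1 := rfl
  have h2 : op F.η l z u' u = opw F.η l z u'.1 u.1 := rfl
  rw [h1, h2, opw_eq F l y _ _ u'.2, opw_eq F l z _ _ u.2]
  have h3 : ∀ w : List I, sgw K F.o w * (w.map (fun b => F.c (F.st b))).prod =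
      (w.map F.c).prod := by
    intro w
    unfold sgw
    induction w with
    | nil => simp
    | cons a w ih =>
      rw [List.map_cons, List.map_cons, List.map_cons, List.prod_cons, List.prod_cons,
        List.prod_cons, ← ih, ← F.sg_c_st a]
      ring
  rw [← h3 u.1]
  ring

end Pool.Agent.H99.EV
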